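import Mathlib

/-!
# Linear programs, nondegenerate vertices, edges and pivots; rules which see names and reduced costs
-/

set_option autoImplicit false

namespace Pool.Agent.W613.NR

/-- A linear program with integer data: maximise `∑ c j * x j` subject to `A x ≤ b`, `x ≥ 0`. The
variables are indexed by `V`, the rows by `R`. -/
structure LP (V R : Type) where
  /-- the matrix -/
  A : R → V → ℤ
  /-- the right-hand side -/
  b : R → ℤ
  /-- the objective function -/
  c : V → ℤ

namespace LP

variable {V R : Type} [Fintype V] (P : LP V R)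

/-- The slack of a constraint: of the row `i`, or of the sign constraint `x j ≥ 0`. -/
def slack (x : V → ℚ) : R ⊕ V → ℚ
  | .inl i => P.b i - ∑ j, P.A i j * x j
  | .inr j => x j

/-- The rate of change of the slack of a constraint in the direction `z`. -/
def rate (z : V → ℚ) : R ⊕ V → ℚ
  | .inl i => -∑ j, P.A i j * z j
  | .inr j => z j

/-- The objective function. -/
def obj (x : V → ℚ) : ℚ := ∑ j, P.c j * x j

/-- All constraints hold. -/
def Feasible (x : V → ℚ) : Prop := ∀ t, 0 ≤ P.slack x t

/-- `x` is a nondegenerate vertex: it is feasible, the number of tight constraints is the number of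
variables, and they are linearly independent. -/
def Vertex (x : V → ℚ) : Prop :=
  P.Feasible x ∧ {t | P.slack x t = 0}.ncard = Fintype.card V ∧
    ∀ z : V → ℚ, (∀ t, P.slack x t = 0 → P.rate z t = 0) → z = 0

/-- `z` is the direction of the edge at the vertex `x` on which the tight constraint `t` is left: all
other tight constraints remain tight, and the slack of `t` grows at rate one. -/
def Edge (x : V → ℚ) (t : R ⊕ V) (z : V → ℚ) : Prop :=
  P.slack x t = 0 ∧ P.rate z t = 1 ∧ ∀ t', t' ≠ t → P.slack x t' = 0 → P.rate z t' = 0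

/-- The pairs (name, reduced cost) of the nonbasic variables (tight constraints) `t` of `x` which can
be left improvingly. The reduced cost is the rate of change of the objective function along the edge
on which the slack of `t` grows at rate one. -/
def Cand (name : R ⊕ V → ℕ) (x : V → ℚ) : Set (ℕ × ℚ) :=
  {p | ∃ t z, P.Edge x t z ∧ 0 < P.obj z ∧ p = (name t, P.obj z)}

/-- `x'` is obtained from `x` by the simplex pivot of the rule `r`: the rule sees the number of
variables and the set of the pairs (name, reduced cost) of the improving nonbasic variables, and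
chooses a name; the edge is followed as far as possible. -/
def Step (name : R ⊕ V → ℕ) (r : ℕ → Finset (ℕ × ℚ) → ℕ) (x x' : V → ℚ) : Prop :=
  ∃ S : Finset (ℕ × ℚ), (S : Set (ℕ × ℚ)) = P.Cand name x ∧ ∃ (t : R ⊕ V) (z : V → ℚ) (s : ℚ),
    name t = r (Fintype.card V) S ∧ P.Edge x t z ∧ 0 < P.obj z ∧ 0 < s ∧ x' = x + s • z ∧
      P.Feasible x' ∧ ∀ s', s < s' → ¬ P.Feasible (x + s' • z)

end LP

/-- The rule chooses the name of one of the improving nonbasic variables, if there are any. -/
def IsRule (r : ℕ → Finset (ℕ × ℚ) → ℕ) : Prop :=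
  ∀ (n : ℕ) (S : Finset (ℕ × ℚ)), S.Nonempty → ∃ c : ℚ, (r n S, c) ∈ S

namespace LP

variable {V R : Type} [Fintype V] (P : LP V R)

theorem slack_add (x z : V → ℚ) (s : ℚ) (t : R ⊕ V) :
    P.slack (x + s • z) t = P.slack x t + s * P.rate z t := by
  rcases t with i | j
  · simp only [slack, rate, Pi.add_apply, Pi.smul_apply, smul_eq_mul, mul_add,
      Finset.sum_add_distrib]
    have e : ∑ j, (P.A i j : ℚ) * (s * z j) = s * ∑ j, (P.A i j : ℚ) * z j := by
      rw [Finset.mul_sum]
      exact Finset.sum_congr rfl fun j _ => by ring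
    rw [e]
    ring
  · simp only [slack, rate, Pi.add_apply, Pi.smul_apply, smul_eq_mul]

theorem rate_sub (z z' : V → ℚ) (t : R ⊕ V) : P.rate (z - z') t = P.rate z t - P.rate z' t := by
  rcases t with i | j
  · simp only [rate, Pi.sub_apply, mul_sub, Finset.sum_sub_distrib]
    ring
  · simp only [rate, Pi.sub_apply]

theorem obj_add (x z : V → ℚ) (s : ℚ) : P.obj (x + s • z) = P.obj x + s * P.obj z := by
  simp only [obj, Pi.add_apply, Pi.smul_apply, smul_eq_mul, mul_add, Finset.sum_add_distrib]
  congr 1
  rw [Finset.mul_sum]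
  exact Finset.sum_congr rfl fun j _ => by ring

variable {P}

theorem Edge.unique {x : V → ℚ} (hx : P.Vertex x) {t : R ⊕ V} {z z' : V → ℚ}
    (h : P.Edge x t z) (h' : P.Edge x t z') : z = z' := by
  have h1 : z - z' = 0 := by
    apply hx.2.2
    intro t' ht'
    rw [rate_sub]
    by_cases he : t' = t
    · subst he
      rw [h.2.1, h'.2.1, sub_self]
    · rw [h.2.2 t' he ht', h'.2.2 t' he ht', sub_self]
  exact sub_eq_zero.mp h1

/-- the pivot is unique -/
theorem Step.unique {name : R ⊕ V → ℕ} (hn : Function.Injective name)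
    {r : ℕ → Finset (ℕ × ℚ) → ℕ} {x x' x'' : V → ℚ} (hx : P.Vertex x)
    (h : P.Step name r x x') (h' : P.Step name r x x'') : x' = x'' := by
  obtain ⟨S, hS, t, z, s, h1, h2, h3, h4, h5, h6, h7⟩ := h
  obtain ⟨S', hS', t', z', s', g1, g2, g3, g4, g5, g6, g7⟩ := h'
  have e1 : S = S' := Finset.coe_injective (hS.trans hS'.symm)
  subst e1
  have e2 : t = t' := hn (h1.trans g1.symm)
  subst e2
  have e3 : z = z' := Edge.unique hx h2 g2
  subst e3
  have e4 : s = s' := by
    rcases lt_trichotomy s s' with h | h | h
    · exact absurd (g5 ▸ g6) (h7 s' h)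
    · exact h
    · exact absurd (h5 ▸ h6) (g7 s h)
  rw [h5, g5, e4]

end LP

end Pool.Agent.W613.NR
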