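import Pool.Agent.W613.NR.Defs

/-!
# The linear programs: a Klee-Minty cube with complementary and constant dummy variables
-/

set_option autoImplicit false

namespace Pool.Agent.W613.NR

open Finset

/-! ### Signs -/

/-- the sign of a bit -/
def sg (b : Bool) : ℚ := if b then -1 else 1

theorem sg_not (b : Bool) : sg (!b) = -sg b := by cases b <;> simp [sg]

theorem sg_or (b : Bool) : sg b = 1 ∨ sg b = -1 := by cases b <;> simp [sg]

/-- the product of the signs of the bits `i, …, j - 1` -/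
def pr (v : ℕ → Bool) (i j : ℕ) : ℚ := ∏ l ∈ Ico i j, sg (v l)

theorem pr_le {v : ℕ → Bool} {i j : ℕ} (h : j ≤ i) : pr v i j = 1 := by
  rw [pr, Ico_eq_empty (by omega), prod_empty]

theorem pr_succ {v : ℕ → Bool} {i j : ℕ} (h : i ≤ j) : pr v i (j + 1) = pr v i j * sg (v j) :=
  prod_Ico_succ_top h _

theorem pr_or (v : ℕ → Bool) (i j : ℕ) : pr v i j = 1 ∨ pr v i j = -1 := by
  induction j with
  | zero => exact Or.inl (pr_le (Nat.zero_le _))
  | succ j ih =>
    rcases Nat.lt_or_ge j i with h | h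
    · exact Or.inl (pr_le (by omega))
    · rw [pr_succ h]
      rcases ih with h1 | h1 <;> rcases sg_or (v j) with h2 | h2 <;> rw [h1, h2] <;> norm_num

/-- flip a bit -/
def fl (v : ℕ → Bool) (i : ℕ) : ℕ → Bool := fun j => if j = i then !v j else v j

theorem pr_fl (v : ℕ → Bool) (i0 i j : ℕ) :
    pr (fl v i0) i j = if i ≤ i0 ∧ i0 < j then -pr v i j else pr v i j := by
  rcases Nat.lt_or_ge j i with h | h
  · rw [if_neg (by omega), pr_le h.le, pr_le h.le]
  · induction j, h using Nat.le_induction with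
    | base => rw [if_neg (by omega), pr_le le_rfl, pr_le le_rfl]
    | succ j hj ih =>
      rw [pr_succ hj, pr_succ hj, ih]
      by_cases h1 : j = i0
      · subst h1
        rw [if_neg (by omega), if_pos ⟨hj, by omega⟩]
        simp only [fl, if_true]
        rw [sg_not]
        ring
      · have e : fl v i0 j = v j := by simp [fl, h1]
        rw [e]
        by_cases h2 : i ≤ i0 ∧ i0 < j
        · rw [if_pos h2, if_pos ⟨h2.1, by omega⟩]
          ring
        · rw [if_neg h2, if_neg (by omega)]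

/-! ### The counter -/

/-- the potential -/
noncomputable def Phi (L : ℕ) (v : ℕ → Bool) : ℕ := ∑ i ∈ range L, if pr v i L = 1 then 2 ^ i else 0

theorem geom (n : ℕ) : (∑ i ∈ range n, 2 ^ i) + 1 = 2 ^ n := by
  induction n with
  | zero => simp
  | succ n ih =>
    rw [sum_range_succ, pow_succ]
    omega

theorem Phi_fl {L : ℕ} {v : ℕ → Bool} {i0 : ℕ} (h : i0 < L) (h1 : pr v i0 L = 1)
    (h2 : ∀ i < i0, pr v i L ≠ 1) : Phi L (fl v i0) + 1 = Phi L v := by
  obtain ⟨m, hm⟩ := Nat.exists_eq_add_of_le (Nat.succ_le_of_lt h)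
  have e1 : ∀ w : ℕ → Bool, Phi L w = (∑ i ∈ range i0, if pr w i L = 1 then 2 ^ i else 0) +
      (if pr w i0 L = 1 then 2 ^ i0 else 0) +
      ∑ x ∈ range m, if pr w (i0.succ + x) L = 1 then 2 ^ (i0.succ + x) else 0 := by
    intro w
    unfold Phi
    conv_lhs => rw [hm]
    rw [sum_range_add, sum_range_succ, ← hm]
  rw [e1, e1]
  have a1 : (∑ i ∈ range i0, if pr (fl v i0) i L = 1 then 2 ^ i else 0) =
      ∑ i ∈ range i0, 2 ^ i := by
    refine sum_congr rfl fun i hi => ?_
    rw [mem_range] at hi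
    have e5 : pr (fl v i0) i L = 1 := by
      rw [pr_fl, if_pos (⟨hi.le, h⟩ : i ≤ i0 ∧ i0 < L), (pr_or v i L).resolve_left (h2 i hi),
        neg_neg]
    rw [e5, if_pos rfl]
  have a2 : (∑ i ∈ range i0, if pr v i L = 1 then 2 ^ i else 0) = 0 := by
    refine sum_eq_zero fun i hi => ?_
    rw [mem_range] at hi
    rw [if_neg (h2 i hi)]
  have a3 : (if pr (fl v i0) i0 L = 1 then 2 ^ i0 else 0) = 0 := by
    have e5 : pr (fl v i0) i0 L = -1 := by
      rw [pr_fl, if_pos (⟨le_rfl, h⟩ : i0 ≤ i0 ∧ i0 < L), h1]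
    rw [e5, if_neg (by norm_num)]
  have a4 : (∑ x ∈ range m, if pr (fl v i0) (i0.succ + x) L = 1 then 2 ^ (i0.succ + x) else 0) =
      ∑ x ∈ range m, if pr v (i0.succ + x) L = 1 then 2 ^ (i0.succ + x) else 0 := by
    refine sum_congr rfl fun x _ => ?_
    have e5 : pr (fl v i0) (i0.succ + x) L = pr v (i0.succ + x) L := by
      rw [pr_fl, if_neg (by omega)]
    rw [e5]
  rw [a1, a2, a3, a4, if_pos h1]
  have := geom i0
  omega

open scoped Classical in
/-- the next state -/
noncomputable def nx (L : ℕ) (v : ℕ → Bool) : ℕ → Bool :=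
  if h : ∃ i, i < L ∧ pr v i L = 1 then fl v (Nat.find h) else v

/-- the states -/
noncomputable def st (L : ℕ) : ℕ → (ℕ → Bool)
  | 0 => fun _ => false
  | k + 1 => nx L (st L k)

theorem exists_of_Phi {L : ℕ} {v : ℕ → Bool} (h : 0 < Phi L v) : ∃ i, i < L ∧ pr v i L = 1 := by
  by_contra hcon
  push Not at hcon
  have : Phi L v = 0 := sum_eq_zero fun i hi => by
    rw [if_neg (hcon i (mem_range.mp hi))]
  omega

theorem nx_spec {L : ℕ} {v : ℕ → Bool} (h : 0 < Phi L v) : ∃ i, i < L ∧ pr v i L = 1 ∧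
    (∀ j < i, pr v j L ≠ 1) ∧ nx L v = fl v i := by
  classical
  have h1 := exists_of_Phi h
  refine ⟨Nat.find h1, (Nat.find_spec h1).1, (Nat.find_spec h1).2, ?_, ?_⟩
  · intro j hj hc
    exact Nat.find_min h1 hj ⟨hj.trans (Nat.find_spec h1).1, hc⟩
  · unfold nx
    rw [dif_pos h1]

theorem Phi_st (L : ℕ) : ∀ k, k ≤ 2 ^ L - 1 → Phi L (st L k) + k = 2 ^ L - 1 := by
  intro k
  induction k with
  | zero =>
    intro _
    have e : ∀ i, pr (st L 0) i L = 1 := fun i => prod_eq_one fun l _ => by simp [st, sg]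
    unfold Phi
    simp only [e, if_true]
    have := geom L
    omega
  | succ k ih =>
    intro hk
    have h1 := ih (by omega)
    obtain ⟨i, hi, h2, h3, h4⟩ := nx_spec (L := L) (v := st L k) (by omega)
    have h5 := Phi_fl hi h2 h3
    rw [← h4] at h5
    change Phi L (nx L (st L k)) + (k + 1) = _
    omega

/-! ### The linear program -/

/-- reals, complementary dummies, constant dummies -/
abbrev Ix (L : ℕ) : Type := Fin L ⊕ Fin L ⊕ Fin L

/-- the linear program -/
def KM (L : ℕ) : LP (Ix L) (Ix L) where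
  A := fun r v => match r, v with
    | .inl j, .inl l => if l = j then 1 else if l < j then 2 else 0
    | .inl j, .inr (.inl i) => if i ≤ j then -2 else 0
    | .inr (.inl i), .inr (.inl i') => if i' = i then 1 else 0
    | .inr (.inr i), .inr (.inr i') => if i' = i then 1 else 0
    | _, _ => 0
  b := fun r => match r with
    | .inl j => 3 ^ (j : ℕ)
    | _ => 1
  c := fun v => match v with
    | .inr (.inl _) => -1
    | _ => 1

/-- the vector with partial sums `f` and dummies `d`, `e` -/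
def mk {L : ℕ} (f : ℕ → ℚ) (d e : Fin L → ℚ) : Ix L → ℚ
  | .inl j => f (j + 1) - f j
  | .inr (.inl i) => d i
  | .inr (.inr i) => e i

theorem sum_lt {L : ℕ} (f : ℕ → ℚ) (j : ℕ) (hj : j ≤ L) :
    ∑ l : Fin L, (if (l : ℕ) < j then f (l + 1) - f l else 0) = f j - f 0 := by
  rw [Fin.sum_univ_eq_sum_range (fun l => if l < j then f (l + 1) - f l else 0) L, ← sum_filter]
  have e : (range L).filter (fun l => l < j) = range j := by
    ext l
    simp only [mem_filter, mem_range]
    omega
  rw [e, sum_range_sub]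

/-- partial sums of the complementary dummies -/
def Dd {L : ℕ} (d : Fin L → ℚ) (j : ℕ) : ℚ := ∑ i : Fin L, if (i : ℕ) ≤ j then d i else 0

theorem row_real {L : ℕ} (f : ℕ → ℚ) (d e : Fin L → ℚ) (hf : f 0 = 0) (j : Fin L) :
    ∑ v, ((KM L).A (.inl j) v : ℚ) * mk f d e v = f (j + 1) + f j - 2 * Dd d j := by
  rw [Fintype.sum_sum_type, Fintype.sum_sum_type]
  have e1 : ∑ l : Fin L, ((KM L).A (.inl j) (.inl l) : ℚ) * mk f d e (.inl l) =
      f (j + 1) + f j := by
    have e2 : ∀ l : Fin L, ((KM L).A (.inl j) (.inl l) : ℚ) * mk f d e (.inl l) =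
        (if l = j then f (l + 1) - f l else 0) +
          2 * (if (l : ℕ) < j then f (l + 1) - f l else 0) := by
      intro l
      simp only [KM, mk]
      by_cases h1 : l = j
      · subst h1
        simp
      · rw [if_neg h1, if_neg h1]
        by_cases h2 : l < j
        · have h3 : (l : ℕ) < j := h2
          rw [if_pos h2, if_pos h3]
          push_cast
          ring
        · have h3 : ¬ (l : ℕ) < j := h2
          rw [if_neg h2, if_neg h3]
          simp
    rw [sum_congr rfl fun l _ => e2 l, sum_add_distrib, ← mul_sum, sum_lt f j j.2.le,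
      sum_ite_eq' univ j (fun l : Fin L => f ((l : ℕ) + 1) - f l), if_pos (mem_univ j), hf]
    ring
  have e3 : ∑ i : Fin L, ((KM L).A (.inl j) (.inr (.inl i)) : ℚ) * mk f d e (.inr (.inl i)) =
      -2 * Dd d j := by
    unfold Dd
    rw [mul_sum]
    refine sum_congr rfl fun i _ => ?_
    simp only [KM, mk]
    by_cases h1 : i ≤ j
    · have h2 : (i : ℕ) ≤ j := h1
      rw [if_pos h1, if_pos h2]
      push_cast
      ring
    · have h2 : ¬ (i : ℕ) ≤ j := h1
      rw [if_neg h1, if_neg h2]
      simp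
  have e4 : ∑ i : Fin L, ((KM L).A (.inl j) (.inr (.inr i)) : ℚ) * mk f d e (.inr (.inr i)) =
      0 := sum_eq_zero fun i _ => by simp [KM]
  rw [e1, e3, e4]
  ring

theorem row_d {L : ℕ} (f : ℕ → ℚ) (d e : Fin L → ℚ) (i : Fin L) :
    ∑ v, ((KM L).A (.inr (.inl i)) v : ℚ) * mk f d e v = d i := by
  rw [Fintype.sum_sum_type, Fintype.sum_sum_type]
  simp [KM, mk]

theorem row_e {L : ℕ} (f : ℕ → ℚ) (d e : Fin L → ℚ) (i : Fin L) :
    ∑ v, ((KM L).A (.inr (.inr i)) v : ℚ) * mk f d e v = e i := by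
  rw [Fintype.sum_sum_type, Fintype.sum_sum_type]
  simp [KM, mk]

theorem obj_mk {L : ℕ} (f : ℕ → ℚ) (d e : Fin L → ℚ) (hf : f 0 = 0) :
    (KM L).obj (mk f d e) = f L - ∑ i, d i + ∑ i, e i := by
  unfold LP.obj
  rw [Fintype.sum_sum_type, Fintype.sum_sum_type]
  have e1 : ∑ l : Fin L, ((KM L).c (.inl l) : ℚ) * mk f d e (.inl l) = f L := by
    have h := sum_lt f L le_rfl
    rw [hf, sub_zero] at h
    rw [← h]
    refine sum_congr rfl fun l _ => ?_
    rw [if_pos l.2]
    simp [KM, mk]
  rw [e1]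
  simp [KM, mk]
  ring

/-! ### The vertices -/

/-- partial sums of the vertex -/
def sf (v : ℕ → Bool) : ℕ → ℚ
  | 0 => 0
  | j + 1 => if v j then 3 ^ j - sf v j else sf v j

theorem sf_bd (v : ℕ → Bool) (j : ℕ) : 0 ≤ sf v j ∧ 2 * sf v j ≤ 3 ^ j - 1 := by
  induction j with
  | zero => simp [sf]
  | succ j ih =>
    have h3 : (1 : ℚ) ≤ 3 ^ j := one_le_pow₀ (by norm_num)
    have h4 : (3 : ℚ) ^ (j + 1) = 3 * 3 ^ j := by ring
    simp only [sf]
    split_ifs
    · constructor <;> linarith [ih.1, ih.2]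
    · constructor <;> linarith [ih.1, ih.2]

theorem sf_pos (v : ℕ → Bool) (j : ℕ) : 0 < (3 : ℚ) ^ j - 2 * sf v j := by
  have := (sf_bd v j).2
  linarith

/-- the vertex -/
def vx (L : ℕ) (v : ℕ → Bool) : Ix L → ℚ := mk (sf v) 0 0

theorem slack_row (L : ℕ) (v : ℕ → Bool) (j : Fin L) : (KM L).slack (vx L v) (.inl (.inl j)) =
    if v j then 0 else 3 ^ (j : ℕ) - 2 * sf v j := by
  have e : (KM L).slack (vx L v) (.inl (.inl j)) = 3 ^ (j : ℕ) -
      ∑ w, ((KM L).A (.inl j) w : ℚ) * vx L v w := by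
    simp [LP.slack, KM]
  rw [e, vx, row_real _ _ _ rfl]
  simp only [sf, Dd, Pi.zero_apply, ite_self, sum_const_zero]
  split_ifs <;> ring

theorem slack_var (L : ℕ) (v : ℕ → Bool) (j : Fin L) : (KM L).slack (vx L v) (.inr (.inl j)) =
    if v j then 3 ^ (j : ℕ) - 2 * sf v j else 0 := by
  simp only [LP.slack, vx, mk, sf]
  split_ifs <;> ring

theorem slack_row2 (L : ℕ) (v : ℕ → Bool) (w : Fin L ⊕ Fin L) :
    (KM L).slack (vx L v) (.inl (.inr w)) = 1 := by
  rcases w with i | i
  · have e : (KM L).slack (vx L v) (.inl (.inr (.inl i))) = 1 -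
        ∑ w, ((KM L).A (.inr (.inl i)) w : ℚ) * vx L v w := by
      simp [LP.slack, KM]
    rw [e, vx, row_d]
    simp
  · have e : (KM L).slack (vx L v) (.inl (.inr (.inr i))) = 1 -
        ∑ w, ((KM L).A (.inr (.inr i)) w : ℚ) * vx L v w := by
      simp [LP.slack, KM]
    rw [e, vx, row_e]
    simp

theorem slack_var2 (L : ℕ) (v : ℕ → Bool) (w : Fin L ⊕ Fin L) :
    (KM L).slack (vx L v) (.inr (.inr w)) = 0 := by
  rcases w with i | i <;> simp [LP.slack, vx, mk]

/-- the tight constraints -/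
def tt {L : ℕ} (v : ℕ → Bool) : Ix L → Ix L ⊕ Ix L
  | .inl j => if v j then .inl (.inl j) else .inr (.inl j)
  | .inr w => .inr (.inr w)

theorem tt_inj {L : ℕ} (v : ℕ → Bool) : Function.Injective (tt (L := L) v) := by
  rintro (a | a) (b | b) h
  · simp only [tt] at h
    split_ifs at h <;> simp_all
  · simp only [tt] at h
    split_ifs at h <;> simp_all
  · simp only [tt] at h
    split_ifs at h <;> simp_all
  · simp only [tt] at h
    simp_all

theorem tight_iff {L : ℕ} (v : ℕ → Bool) (t : Ix L ⊕ Ix L) :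
    (KM L).slack (vx L v) t = 0 ↔ ∃ w, tt v w = t := by
  constructor
  · intro h
    rcases t with (j | w) | (j | w)
    · rw [slack_row] at h
      by_cases hv : v j
      · exact ⟨.inl j, by simp [tt, hv]⟩
      · rw [if_neg hv] at h
        exact absurd h (sf_pos v j).ne'
    · rw [slack_row2] at h
      norm_num at h
    · rw [slack_var] at h
      by_cases hv : v j
      · rw [if_pos hv] at h
        exact absurd h (sf_pos v j).ne'
      · exact ⟨.inl j, by simp [tt, hv]⟩
    · exact ⟨.inr w, rfl⟩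
  · rintro ⟨w, rfl⟩
    rcases w with j | w
    · by_cases hv : v j
      · simp only [tt, hv, if_true]
        rw [slack_row, if_pos hv]
      · simp only [tt, hv]
        rw [if_neg (by simp), slack_var, if_neg hv]
    · exact slack_var2 L v w

theorem feas {L : ℕ} (v : ℕ → Bool) : (KM L).Feasible (vx L v) := by
  intro t
  rcases t with (j | w) | (j | w)
  · rw [slack_row]
    split_ifs
    · exact le_rfl
    · exact (sf_pos v j).le
  · rw [slack_row2]
    norm_num
  · rw [slack_var]
    split_ifs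
    · exact (sf_pos v j).le
    · exact le_rfl
  · rw [slack_var2]

/-- rates of change -/
theorem rate_tt {L : ℕ} (v : ℕ → Bool) (f : ℕ → ℚ) (d e : Fin L → ℚ) (hf : f 0 = 0) (j : Fin L) :
    (KM L).rate (mk f d e) (tt v (.inl j)) =
      if v j then -(f (j + 1) + f j) + 2 * Dd d j else f (j + 1) - f j := by
  by_cases hv : v j
  · simp only [tt, hv, if_true]
    have e : (KM L).rate (mk f d e) (.inl (.inl j)) =
        -∑ w, ((KM L).A (.inl j) w : ℚ) * mk f d e w := rfl
    rw [e, row_real _ _ _ hf]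
    ring
  · simp only [tt, hv]
    rw [if_neg (by simp), if_neg (by simp)]
    rfl

theorem rate_tt_d {L : ℕ} (v : ℕ → Bool) (f : ℕ → ℚ) (d e : Fin L → ℚ) (i : Fin L) :
    (KM L).rate (mk f d e) (tt v (.inr (.inl i))) = d i := rfl

theorem rate_tt_e {L : ℕ} (v : ℕ → Bool) (f : ℕ → ℚ) (d e : Fin L → ℚ) (i : Fin L) :
    (KM L).rate (mk f d e) (tt v (.inr (.inr i))) = e i := rfl

/-- every vector has the form `mk` -/
theorem eq_mk {L : ℕ} (z : Ix L → ℚ) : ∃ f : ℕ → ℚ, f 0 = 0 ∧
    z = mk f (fun i => z (.inr (.inl i))) (fun i => z (.inr (.inr i))) := by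
  refine ⟨fun j => ∑ l : Fin L, if (l : ℕ) < j then z (.inl l) else 0, by simp, ?_⟩
  funext w
  rcases w with j | i | i
  · simp only [mk]
    rw [← sum_sub_distrib, sum_eq_single j]
    · simp
    · intro l _ hl
      have : (l : ℕ) ≠ j := fun h => hl (Fin.ext h)
      by_cases h : (l : ℕ) < j
      · rw [if_pos (by omega), if_pos h, sub_self]
      · rw [if_neg (by omega), if_neg h, sub_self]
    · intro h
      exact absurd (mem_univ j) h
  · rfl
  · rfl

theorem vertex {L : ℕ} (v : ℕ → Bool) : (KM L).Vertex (vx L v) := by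
  refine ⟨feas v, ?_, ?_⟩
  · have e : {t | (KM L).slack (vx L v) t = 0} = tt v '' Set.univ := by
      ext t
      rw [Set.image_univ]
      exact tight_iff v t
    rw [e, Set.ncard_image_of_injective _ (tt_inj v), Set.ncard_univ, Nat.card_eq_fintype_card]
  · intro z hz
    have hz' : ∀ w, (KM L).rate z (tt v w) = 0 := fun w =>
      hz _ ((tight_iff v _).mpr ⟨w, rfl⟩)
    obtain ⟨f, hf, hfz⟩ := eq_mk z
    have hd : (fun i => z (.inr (.inl i))) = (0 : Fin L → ℚ) := funext fun i => hz' (.inr (.inl i))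
    have he : (fun i => z (.inr (.inr i))) = (0 : Fin L → ℚ) := funext fun i => hz' (.inr (.inr i))
    rw [hd, he] at hfz
    have hD : ∀ j, Dd (0 : Fin L → ℚ) j = 0 := fun j => by simp [Dd]
    have h1 : ∀ j, j ≤ L → f j = 0 := by
      intro j
      induction j with
      | zero => intro _; exact hf
      | succ j ih =>
        intro hj
        have h2 := hz' (.inl ⟨j, by omega⟩)
        rw [hfz, rate_tt _ _ _ _ hf, hD] at h2
        have h3 := ih (by omega)
        simp only [h3] at h2
        split_ifs at h2 <;> linarith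
    rw [hfz]
    funext w
    rcases w with j | i | i
    · simp only [mk]
      rw [h1 _ (Nat.succ_le_of_lt j.2), h1 _ j.2.le]
      simp
    · rfl
    · rfl

/-! ### The edges -/

theorem edge_of {L : ℕ} {v : ℕ → Bool} {w : Ix L} {z : Ix L → ℚ}
    (h : ∀ w', (KM L).rate z (tt v w') = if w' = w then 1 else 0) :
    (KM L).Edge (vx L v) (tt v w) z := by
  refine ⟨(tight_iff v _).mpr ⟨w, rfl⟩, by rw [h, if_pos rfl], ?_⟩
  intro t' ht' hs
  obtain ⟨w', rfl⟩ := (tight_iff v _).mp hs
  rw [h, if_neg (fun e => ht' (by rw [e]))]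

/-- direction of the edge of a real -/
def zr {L : ℕ} (v : ℕ → Bool) (i : Fin L) : Ix L → ℚ :=
  mk (fun j => if j ≤ (i : ℕ) then 0 else pr v i j) 0 0

/-- direction of the edge of a complementary dummy -/
def zd {L : ℕ} (v : ℕ → Bool) (i : Fin L) : Ix L → ℚ :=
  mk (fun j => 1 - pr v i j) (Pi.single i 1) 0

/-- direction of the edge of a constant dummy -/
def ze {L : ℕ} (i : Fin L) : Ix L → ℚ := mk 0 0 (Pi.single i 1)

theorem Dd_zero {L : ℕ} (j : ℕ) : Dd (0 : Fin L → ℚ) j = 0 := by simp [Dd]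

theorem Dd_single {L : ℕ} (i : Fin L) (j : ℕ) : Dd (Pi.single i (1 : ℚ)) j =
    if (i : ℕ) ≤ j then 1 else 0 := by
  unfold Dd
  rw [sum_eq_single i]
  · simp
  · intro l _ hl
    rw [Pi.single_eq_of_ne hl]
    simp
  · intro h
    exact absurd (mem_univ i) h

theorem edge_r {L : ℕ} (v : ℕ → Bool) (i : Fin L) :
    (KM L).Edge (vx L v) (tt v (.inl i)) (zr v i) := by
  apply edge_of
  rintro (j | j | j)
  · unfold zr
    rw [rate_tt _ _ _ _ (by simp), Dd_zero]
    rcases lt_trichotomy (j : ℕ) i with h | h | h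
    · have hne : (Sum.inl j : Ix L) ≠ .inl i := fun e => by
        have := Sum.inl.inj e
        rw [this] at h
        exact lt_irrefl _ h
      rw [if_pos (by omega : (j : ℕ) + 1 ≤ i), if_pos (by omega : (j : ℕ) ≤ i), if_neg hne]
      simp
    · obtain rfl : j = i := Fin.ext h
      rw [if_neg (by omega : ¬ (j : ℕ) + 1 ≤ j), if_pos le_rfl, if_pos rfl, pr_succ le_rfl,
        pr_le le_rfl]
      by_cases hv : v j <;> simp [sg, hv]
    · have hne : (Sum.inl j : Ix L) ≠ .inl i := fun e => by
        have := Sum.inl.inj e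
        rw [this] at h
        exact lt_irrefl _ h
      rw [if_neg (by omega : ¬ (j : ℕ) + 1 ≤ i), if_neg (by omega : ¬ (j : ℕ) ≤ i), if_neg hne,
        pr_succ h.le]
      by_cases hv : v j <;> simp [sg, hv]
  · unfold zr
    rw [rate_tt_d]
    simp
  · unfold zr
    rw [rate_tt_e]
    simp

theorem edge_d {L : ℕ} (v : ℕ → Bool) (i : Fin L) :
    (KM L).Edge (vx L v) (tt v (.inr (.inl i))) (zd v i) := by
  apply edge_of
  rintro (j | j | j)
  · unfold zd
    rw [rate_tt _ _ _ _ (by rw [pr_le (Nat.zero_le _), sub_self]), Dd_single,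
      if_neg (by simp : ¬ (Sum.inl j : Ix L) = .inr (.inl i))]
    rcases Nat.lt_or_ge j i with h | h
    · rw [pr_le (by omega : (j : ℕ) + 1 ≤ i), pr_le h.le,
        if_neg (by omega : ¬ (i : ℕ) ≤ j)]
      simp
    · rw [pr_succ h, if_pos h]
      by_cases hv : v j
      · simp only [sg, hv, if_true]
        ring
      · simp [sg, hv]
  · unfold zd
    rw [rate_tt_d]
    by_cases h : j = i
    · subst h; simp
    · rw [Pi.single_eq_of_ne h, if_neg (by simpa using h)]
  · unfold zd
    rw [rate_tt_e]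
    simp

theorem edge_e {L : ℕ} (v : ℕ → Bool) (i : Fin L) :
    (KM L).Edge (vx L v) (tt v (.inr (.inr i))) (ze i) := by
  apply edge_of
  rintro (j | j | j)
  · unfold ze
    rw [rate_tt _ _ _ _ (by simp), Dd_zero,
      if_neg (by simp : ¬ (Sum.inl j : Ix L) = .inr (.inr i))]
    simp
  · unfold ze
    rw [rate_tt_d]
    simp
  · unfold ze
    rw [rate_tt_e]
    by_cases h : j = i
    · subst h; simp
    · rw [Pi.single_eq_of_ne h, if_neg (by simpa using h)]

theorem obj_r {L : ℕ} (v : ℕ → Bool) (i : Fin L) : (KM L).obj (zr v i) = pr v i L := by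
  unfold zr
  rw [obj_mk _ _ _ (by simp), if_neg (by omega)]
  simp

theorem obj_d {L : ℕ} (v : ℕ → Bool) (i : Fin L) : (KM L).obj (zd v i) = -pr v i L := by
  unfold zd
  rw [obj_mk _ _ _ (by rw [pr_le (Nat.zero_le _), sub_self])]
  simp

theorem obj_e {L : ℕ} (i : Fin L) : (KM L).obj (ze i) = 1 := by
  unfold ze
  rw [obj_mk _ _ _ (by simp)]
  simp

/-! ### The candidates -/

open scoped Classical in
/-- the improving nonbasic variables -/
noncomputable def cw {L : ℕ} (v : ℕ → Bool) : Fin L ⊕ Fin L → Ix L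
  | .inl i => if pr v i L = 1 then .inl i else .inr (.inl i)
  | .inr i => .inr (.inr i)

theorem cw_inj {L : ℕ} (v : ℕ → Bool) : Function.Injective (cw (L := L) v) := by
  rintro (a | a) (b | b) h
  · simp only [cw] at h
    split_ifs at h <;> simp_all
  · simp only [cw] at h
    split_ifs at h <;> simp_all
  · simp only [cw] at h
    split_ifs at h <;> simp_all
  · simp only [cw] at h
    simp_all

theorem cand_eq {L : ℕ} (v : ℕ → Bool) (name : Ix L ⊕ Ix L → ℕ) :
    (KM L).Cand name (vx L v) = {p | ∃ u, p = (name (tt v (cw v u)), 1)} := by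
  ext p
  constructor
  · rintro ⟨t, z, hE, ho, rfl⟩
    obtain ⟨w, rfl⟩ := (tight_iff v _).mp hE.1
    rcases w with i | i | i
    · have hz := LP.Edge.unique (vertex v) hE (edge_r v i)
      subst hz
      rw [obj_r] at ho ⊢
      have h1 : pr v i L = 1 := by
        rcases pr_or v i L with h | h
        · exact h
        · rw [h] at ho
          norm_num at ho
      exact ⟨.inl i, by rw [h1]; simp [cw, h1]⟩
    · have hz := LP.Edge.unique (vertex v) hE (edge_d v i)
      subst hz
      rw [obj_d] at ho ⊢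
      have h1 : pr v i L = -1 := by
        rcases pr_or v i L with h | h
        · rw [h] at ho
          norm_num at ho
        · exact h
      refine ⟨.inl i, ?_⟩
      have h2 : ¬ pr v i L = 1 := by rw [h1]; norm_num
      rw [h1, neg_neg]
      simp [cw, h2]
    · have hz := LP.Edge.unique (vertex v) hE (edge_e v i)
      subst hz
      rw [obj_e]
      exact ⟨.inr i, rfl⟩
  · rintro ⟨u, rfl⟩
    rcases u with i | i
    · by_cases h : pr v i L = 1
      · refine ⟨_, _, edge_r v i, by rw [obj_r, h]; norm_num, ?_⟩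
        rw [obj_r, h]
        simp [cw, h]
      · have h1 := (pr_or v i L).resolve_left h
        refine ⟨_, _, edge_d v i, by rw [obj_d, h1]; norm_num, ?_⟩
        rw [obj_d, h1, neg_neg]
        simp [cw, h]
    · exact ⟨_, _, edge_e v i, by rw [obj_e]; norm_num, by rw [obj_e]; rfl⟩

/-! ### The pivot -/

theorem sf_fl (v : ℕ → Bool) (i : ℕ) (j : ℕ) : sf (fl v i) j =
    sf v j + (3 ^ i - 2 * sf v i) * (if j ≤ i then 0 else pr v i j) := by
  induction j with
  | zero => simp [sf]
  | succ j ih =>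
    rcases lt_trichotomy j i with h | h | h
    · have e : fl v i j = v j := by simp [fl, h.ne]
      rw [if_pos h.le, mul_zero, add_zero] at ih
      rw [if_pos (by omega : j + 1 ≤ i), mul_zero, add_zero]
      simp only [sf]
      rw [e, ih]
    · subst h
      have e : fl v j j = !v j := by simp [fl]
      rw [if_pos le_rfl, mul_zero, add_zero] at ih
      rw [if_neg (by omega : ¬ j + 1 ≤ j), pr_succ le_rfl, pr_le le_rfl]
      simp only [sf]
      rw [e, ih]
      cases v j
      · simp only [sg, Bool.not_false, if_true]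
        rw [if_neg (by simp), if_neg (by simp)]
        ring
      · simp only [sg, Bool.not_true, if_true]
        rw [if_neg (by simp)]
        ring
    · have e : fl v i j = v j := by simp [fl, h.ne']
      rw [if_neg (by omega : ¬ j ≤ i)] at ih
      rw [if_neg (by omega : ¬ j + 1 ≤ i), pr_succ h.le]
      simp only [sf]
      rw [e, ih]
      cases v j
      · simp only [sg]
        rw [if_neg (by simp), if_neg (by simp), if_neg (by simp)]
        ring
      · simp only [sg, if_true]
        ring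

theorem vx_fl {L : ℕ} (v : ℕ → Bool) (i : Fin L) :
    vx L (fl v i) = vx L v + (3 ^ (i : ℕ) - 2 * sf v i) • zr v i := by
  funext w
  rcases w with j | j | j
  · simp only [vx, zr, mk, Pi.add_apply, Pi.smul_apply, smul_eq_mul]
    rw [sf_fl, sf_fl]
    ring
  · simp [vx, zr, mk]
  · simp [vx, zr, mk]

theorem beyond {L : ℕ} (v : ℕ → Bool) (i : Fin L) (s' : ℚ)
    (h : 3 ^ (i : ℕ) - 2 * sf v i < s') : ¬ (KM L).Feasible (vx L v + s' • zr v i) := by
  intro hf
  by_cases hv : v i
  · have h1 := hf (.inr (.inl i))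
    rw [LP.slack_add, slack_var, if_pos hv] at h1
    have e : (KM L).rate (zr v i) (.inr (.inl i)) = -1 := by
      simp only [LP.rate, zr, mk]
      rw [if_neg (by omega), if_pos le_rfl, pr_succ le_rfl, pr_le le_rfl]
      simp [sg, hv]
    rw [e] at h1
    linarith
  · have h1 := hf (.inl (.inl i))
    rw [LP.slack_add, slack_row, if_neg hv] at h1
    have e : (KM L).rate (zr v i) (.inl (.inl i)) = -1 := by
      have e1 : (KM L).rate (zr v i) (.inl (.inl i)) =
          -∑ w, ((KM L).A (.inl i) w : ℚ) * zr v i w := rfl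
      rw [e1, zr, row_real _ _ _ (by simp), Dd_zero, if_neg (by omega), if_pos le_rfl,
        pr_succ le_rfl, pr_le le_rfl]
      simp [sg, hv]
    rw [e] at h1
    linarith

end Pool.Agent.W613.NR
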