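import Pool.Agent.W613.NR.Pos

/-!
# Every memoryless pivot rule which sees only names and reduced costs is exponential

A rule sees the number of variables and the set of the pairs (name, reduced cost) of the improving
nonbasic variables (tight constraints), and chooses one of these names. For every such rule and every
`L ≥ 1` there is a bounded linear program with `3 L` variables, `3 L` rows, coefficients of absolute
value at most `2` and right-hand sides at most `3 ^ L`, and an injective naming of the `6 L`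
constraints, such that the simplex path of the rule which starts in `0` makes at least `2 ^ L - 1`
pivots; all vertices of this path are nondegenerate, and at each of them there are exactly `2 L`
improving nonbasic variables, all with reduced cost `1`.
-/

set_option autoImplicit false

namespace Pool.Agent.W613.NR

open Finset

theorem bound_A {L : ℕ} (i j : Ix L) : |(KM L).A i j| ≤ 2 := by
  rcases i with i | i | i <;> rcases j with j | j | j <;> simp only [KM] <;> (try split_ifs) <;>
    norm_num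

theorem bound_b {L : ℕ} (i : Ix L) : 1 ≤ (KM L).b i ∧ (KM L).b i ≤ 3 ^ L := by
  have h : (1 : ℤ) ≤ 3 ^ L := one_le_pow₀ (by norm_num)
  rcases i with i | i | i
  · exact ⟨one_le_pow₀ (by norm_num), pow_le_pow_right₀ (by norm_num) i.2.le⟩
  · exact ⟨le_rfl, h⟩
  · exact ⟨le_rfl, h⟩

theorem bound_c {L : ℕ} (j : Ix L) : |(KM L).c j| = 1 := by
  rcases j with j | j | j <;> simp [KM]

theorem bound_y {L : ℕ} (y : Ix L → ℚ) (hy : (KM L).Feasible y) (w : Ix L) :
    0 ≤ y w ∧ y w ≤ 3 ^ L + 2 * L := by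
  have h0 : ∀ w, 0 ≤ y w := fun w => hy (.inr w)
  obtain ⟨f, hf, hfy⟩ := eq_mk y
  set d : Fin L → ℚ := fun i => y (.inr (.inl i)) with hd
  set e : Fin L → ℚ := fun i => y (.inr (.inr i)) with he
  have h1 : ∀ i, d i ≤ 1 := by
    intro i
    have h2 := hy (.inl (.inr (.inl i)))
    have h3 : (KM L).slack y (.inl (.inr (.inl i))) =
        1 - ∑ w, ((KM L).A (.inr (.inl i)) w : ℚ) * y w := by
      simp [LP.slack, KM]
    rw [h3, hfy, row_d] at h2
    linarith
  have h1' : ∀ i, e i ≤ 1 := by
    intro i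
    have h2 := hy (.inl (.inr (.inr i)))
    have h3 : (KM L).slack y (.inl (.inr (.inr i))) =
        1 - ∑ w, ((KM L).A (.inr (.inr i)) w : ℚ) * y w := by
      simp [LP.slack, KM]
    rw [h3, hfy, row_e] at h2
    linarith
  have hL : (0 : ℚ) ≤ L := Nat.cast_nonneg L
  have h3L : (1 : ℚ) ≤ 3 ^ L := one_le_pow₀ (by norm_num)
  refine ⟨h0 w, ?_⟩
  rcases w with j | i | i
  · have hm : ∀ j, j ≤ L → 0 ≤ f j := by
      intro j
      induction j with
      | zero => intro _; rw [hf]
      | succ j ih =>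
        intro hj
        have h4 := h0 (.inl ⟨j, by omega⟩)
        rw [hfy] at h4
        simp only [W613.NR.mk] at h4
        linarith [ih (by omega)]
    have h2 := hy (.inl (.inl j))
    have h3 : (KM L).slack y (.inl (.inl j)) =
        3 ^ (j : ℕ) - ∑ w, ((KM L).A (.inl j) w : ℚ) * y w := by
      simp [LP.slack, KM]
    rw [h3, hfy, row_real _ _ _ hf] at h2
    have h5 : Dd d j ≤ L := by
      unfold Dd
      calc ∑ i : Fin L, (if (i : ℕ) ≤ j then d i else 0) ≤ ∑ _i : Fin L, (1 : ℚ) := by
            refine sum_le_sum fun i _ => ?_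
            split_ifs
            · exact h1 i
            · norm_num
        _ = L := by simp
    have h6 : (3 : ℚ) ^ (j : ℕ) ≤ 3 ^ L := pow_le_pow_right₀ (by norm_num) j.2.le
    have h7 : y (.inl j) = f (j + 1) - f j := by
      conv_lhs => rw [hfy]
      rfl
    rw [h7]
    linarith [hm j j.2.le]
  · have := h1 i
    change d i ≤ _
    linarith
  · have := h1' i
    change e i ≤ _
    linarith

theorem vx_zero (L : ℕ) : vx L (st L 0) = 0 := by
  have h : ∀ j, sf (fun _ => false) j = 0 := by
    intro j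
    induction j with
    | zero => rfl
    | succ j ih => simp [sf, ih]
  funext w
  rcases w with j | i | i
  · simp [vx, W613.NR.mk, st, h]
  · rfl
  · rfl

theorem cand_card {L : ℕ} (v : ℕ → Bool) (name : Ix L ⊕ Ix L → ℕ)
    (hn : Function.Injective name) : ((KM L).Cand name (vx L v)).ncard = 2 * L ∧
      ∀ p ∈ (KM L).Cand name (vx L v), p.2 = 1 := by
  rw [cand_eq]
  constructor
  · have e : {p : ℕ × ℚ | ∃ u, p = (name (tt v (cw v u)), 1)} =
        (fun u : Fin L ⊕ Fin L => ((name (tt v (cw v u)), 1) : ℕ × ℚ)) '' Set.univ := by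
      ext p
      rw [Set.image_univ]
      constructor
      · rintro ⟨u, rfl⟩
        exact ⟨u, rfl⟩
      · rintro ⟨u, rfl⟩
        exact ⟨u, rfl⟩
    rw [e, Set.ncard_image_of_injective, Set.ncard_univ, Nat.card_eq_fintype_card,
      Fintype.card_sum, Fintype.card_fin]
    · ring
    · intro u u' h
      exact cw_inj v (tt_inj v (hn (Prod.mk.inj h).1))
  · rintro p ⟨u, rfl⟩
    rfl

/-- For every memoryless rule `r` which sees the number of variables and the set of the pairs
(name, reduced cost) of the improving nonbasic variables there are linear programs with `3 L`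
variables and `3 L` rows, with small integer data, on which the simplex path of `r` from the vertex
`0` makes at least `2 ^ L - 1` pivots. -/
theorem result (r : ℕ → Finset (ℕ × ℚ) → ℕ) (hr : IsRule r) (L : ℕ) (hL : 1 ≤ L) :
    ∃ (P : LP (Fin L ⊕ Fin L ⊕ Fin L) (Fin L ⊕ Fin L ⊕ Fin L))
      (name : (Fin L ⊕ Fin L ⊕ Fin L) ⊕ (Fin L ⊕ Fin L ⊕ Fin L) → ℕ)
      (x : ℕ → (Fin L ⊕ Fin L ⊕ Fin L → ℚ)),
      Function.Injective name ∧
      (∀ i j, |P.A i j| ≤ 2) ∧ (∀ i, 1 ≤ P.b i ∧ P.b i ≤ 3 ^ L) ∧ (∀ j, |P.c j| = 1) ∧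
      (∀ y, P.Feasible y → ∀ j, 0 ≤ y j ∧ y j ≤ 3 ^ L + 2 * L) ∧
      x 0 = 0 ∧
      (∀ k, k ≤ 2 ^ L - 1 → P.Vertex (x k) ∧ (P.Cand name (x k)).ncard = 2 * L ∧
        ∀ p ∈ P.Cand name (x k), p.2 = 1) ∧
      ∀ k, k < 2 ^ L - 1 → P.obj (x k) < P.obj (x (k + 1)) ∧
        ∀ y, P.Step name r (x k) y ↔ y = x (k + 1) := by
  obtain ⟨name, hn, hname⟩ := exists_name hr L hL
  refine ⟨KM L, name, fun k => vx L (st L k), hn, bound_A, bound_b, bound_c, bound_y,
    vx_zero L, fun k _ => ⟨vertex _, cand_card _ _ hn⟩, ?_⟩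
  intro k hk
  have hP := Phi_st L k hk.le
  obtain ⟨i, hi, h1, h2, h3⟩ := nx_spec (L := L) (v := st L k) (by omega)
  have hx : vx L (st L (k + 1)) =
      vx L (st L k) + (3 ^ i - 2 * sf (st L k) i) • zr (st L k) ⟨i, hi⟩ := by
    change vx L (nx L (st L k)) = _
    rw [h3]
    exact vx_fl (st L k) ⟨i, hi⟩
  have hob : (KM L).obj (zr (st L k) (⟨i, hi⟩ : Fin L)) = 1 := by
    rw [obj_r]
    exact h1
  have hs := sf_pos (st L k) i
  have hstep : (KM L).Step name r (vx L (st L k)) (vx L (st L (k + 1))) := by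
    refine ⟨(univ.image (fun u : Fin L ⊕ Fin L => name (tt (st L k) (cw (st L k) u)))).image
      (fun y => (y, (1 : ℚ))), ?_, tt (st L k) (.inl ⟨i, hi⟩), zr (st L k) ⟨i, hi⟩,
      3 ^ i - 2 * sf (st L k) i, ?_, edge_r _ _, ?_, hs, hx, feas _, ?_⟩
    · rw [cand_eq]
      ext p
      simp only [coe_image, coe_univ, Set.image_univ, Set.mem_image, Set.mem_range,
        Set.mem_ofPred_eq]
      constructor
      · rintro ⟨y, ⟨u, rfl⟩, rfl⟩
        exact ⟨u, rfl⟩
      · rintro ⟨u, rfl⟩
        exact ⟨_, ⟨u, rfl⟩, rfl⟩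
    · have hc : Fintype.card (Fin L ⊕ Fin L ⊕ Fin L) = 3 * L := by
        simp only [Fintype.card_sum, Fintype.card_fin]
        ring
      rw [hc]
      exact (hname (st L k) ⟨i, hi⟩ h1 h2).symm
    · rw [hob]
      norm_num
    · intro s' hs'
      exact beyond (st L k) ⟨i, hi⟩ s' hs'
  refine ⟨?_, fun y => ⟨fun hy => LP.Step.unique hn (vertex _) hy hstep, ?_⟩⟩
  · change (KM L).obj (vx L (st L k)) < (KM L).obj (vx L (st L (k + 1)))
    rw [hx, LP.obj_add, hob]
    linarith
  · rintro rfl
    exact hstep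

end Pool.Agent.W613.NR
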