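import Pool.Agent.W613.NR.Km
import Pool.Agent.W613.NR.Ramsey

/-!
# Names
-/

set_option autoImplicit false

namespace Pool.Agent.W613.NR

open Finset

/-- layout, ranks counted from below -/
def pos1 (L ρ : ℕ) : Ix L ⊕ Ix L → ℕ
  | .inr (.inl j) => L + 2 * j
  | .inl (.inl j) => L + 2 * j + 1
  | .inr (.inr (.inl i)) => 3 * L + i
  | .inr (.inr (.inr i)) => if (i : ℕ) < ρ then i else 4 * L + i
  | .inl (.inr (.inl i)) => 5 * L + i
  | .inl (.inr (.inr i)) => 6 * L + i

/-- layout, ranks counted from above -/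
def pos2 (L σ : ℕ) : Ix L ⊕ Ix L → ℕ
  | .inr (.inl j) => 2 * L + 2 * (L - 1 - j)
  | .inl (.inl j) => 2 * L + 2 * (L - 1 - j) + 1
  | .inr (.inr (.inl i)) => L + i
  | .inr (.inr (.inr i)) => if (i : ℕ) < σ then 4 * L + i else i
  | .inl (.inr (.inl i)) => 5 * L + i
  | .inl (.inr (.inr i)) => 6 * L + i

theorem pos1_inj (L ρ : ℕ) : Function.Injective (pos1 L ρ) := by
  rintro ((a | a | a) | (a | a | a)) ((b | b | b) | (b | b | b)) h <;>
    have ha := a.2 <;> have hb := b.2 <;> simp only [pos1] at h <;>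
    first
      | (exfalso; omega)
      | (have e : a = b := Fin.ext (by omega)
         subst e; rfl)
      | (exfalso; split_ifs at h <;> omega)
      | (split_ifs at h <;> first
          | (exfalso; omega)
          | (have e : a = b := Fin.ext (by omega)
             subst e; rfl))

theorem pos2_inj (L σ : ℕ) : Function.Injective (pos2 L σ) := by
  rintro ((a | a | a) | (a | a | a)) ((b | b | b) | (b | b | b)) h <;>
    have ha := a.2 <;> have hb := b.2 <;> simp only [pos2] at h <;>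
    first
      | (exfalso; omega)
      | (have e : a = b := Fin.ext (by omega)
         subst e; rfl)
      | (exfalso; split_ifs at h <;> omega)
      | (split_ifs at h <;> first
          | (exfalso; omega)
          | (have e : a = b := Fin.ext (by omega)
             subst e; rfl))

theorem sum_fin_lt (L ρ : ℕ) (h : ρ ≤ L) :
    ∑ i : Fin L, (if (i : ℕ) < ρ then 1 else 0) = ρ := by
  rw [Fin.sum_univ_eq_sum_range (fun i => if i < ρ then 1 else 0) L, ← sum_filter]
  have e : (range L).filter (fun i => i < ρ) = range ρ := by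
    ext i
    simp only [mem_filter, mem_range]
    omega
  rw [e]
  simp

theorem sum_fin_ge (L ρ : ℕ) (h : ρ ≤ L) :
    ∑ i : Fin L, (if (i : ℕ) < ρ then 0 else 1) = L - ρ := by
  have h1 := sum_fin_lt L ρ h
  have h2 : ∑ i : Fin L, ((if (i : ℕ) < ρ then 1 else 0) + (if (i : ℕ) < ρ then 0 else 1)) = L := by
    have h3 : ∀ i : Fin L, ((if (i : ℕ) < ρ then 1 else 0) + (if (i : ℕ) < ρ then 0 else 1)) = 1 :=
      fun i => by split_ifs <;> rfl
    simp only [h3]
    simp
  rw [sum_add_distrib, h1] at h2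
  omega

/-- the least improving real has rank `ρ` -/
theorem count1 {L ρ : ℕ} (hρ : ρ ≤ L) (v : ℕ → Bool) (i0 : Fin L) (h1 : pr v i0 L = 1)
    (h2 : ∀ j < (i0 : ℕ), pr v j L ≠ 1) :
    (univ.filter (fun u : Fin L ⊕ Fin L =>
      pos1 L ρ (tt v (cw v u)) < pos1 L ρ (tt v (.inl i0)))).card = ρ := by
  rw [card_filter, Fintype.sum_sum_type]
  have e0 : pos1 L ρ (tt v (.inl i0)) = L + 2 * i0 ∨ pos1 L ρ (tt v (.inl i0)) = L + 2 * i0 + 1 := by
    by_cases hv : v i0 <;> simp [tt, hv, pos1]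
  have hi0 := i0.2
  have e1 : ∀ i : Fin L, ¬ pos1 L ρ (tt v (cw v (.inl i))) < pos1 L ρ (tt v (.inl i0)) := by
    intro i
    by_cases h : pr v i L = 1
    · have hw : cw v (.inl i) = .inl i := by simp [cw, h]
      rw [hw]
      rcases lt_trichotomy (i : ℕ) i0 with hi | hi | hi
      · exact absurd h (h2 i hi)
      · have : i = i0 := Fin.ext hi
        rw [this]
        exact lt_irrefl _
      · have e2 : L + 2 * i ≤ pos1 L ρ (tt v (.inl i)) := by
          by_cases hv : v i <;> simp [tt, hv, pos1]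
        omega
    · have hw : cw v (.inl i) = .inr (.inl i) := by simp [cw, h]
      rw [hw]
      have e2 : pos1 L ρ (tt v (.inr (.inl i))) = 3 * L + i := rfl
      omega
  have e3 : ∀ i : Fin L, pos1 L ρ (tt v (cw v (.inr i))) < pos1 L ρ (tt v (.inl i0)) ↔
      (i : ℕ) < ρ := by
    intro i
    have e2 : pos1 L ρ (tt v (cw v (.inr i))) = if (i : ℕ) < ρ then (i : ℕ) else 4 * L + i := rfl
    have := i.2
    rw [e2]
    split_ifs <;> omega
  simp only [e1, e3, if_false, sum_const_zero, zero_add]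
  exact sum_fin_lt L ρ hρ

theorem count2 {L σ : ℕ} (hσ : σ ≤ L) (v : ℕ → Bool) (i0 : Fin L) (h1 : pr v i0 L = 1)
    (h2 : ∀ j < (i0 : ℕ), pr v j L ≠ 1) :
    (univ.filter (fun u : Fin L ⊕ Fin L =>
      pos2 L σ (tt v (cw v u)) < pos2 L σ (tt v (.inl i0)))).card = 2 * L - 1 - σ := by
  rw [card_filter, Fintype.sum_sum_type]
  have e0 : pos2 L σ (tt v (.inl i0)) = 2 * L + 2 * (L - 1 - i0) ∨
      pos2 L σ (tt v (.inl i0)) = 2 * L + 2 * (L - 1 - i0) + 1 := by
    by_cases hv : v i0 <;> simp [tt, hv, pos2]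
  have hi0 := i0.2
  have e1 : ∀ i : Fin L, pos2 L σ (tt v (cw v (.inl i))) < pos2 L σ (tt v (.inl i0)) ↔
      i ≠ i0 := by
    intro i
    have hi' := i.2
    by_cases h : pr v i L = 1
    · have hw : cw v (.inl i) = .inl i := by simp [cw, h]
      rw [hw]
      rcases lt_trichotomy (i : ℕ) i0 with hi | hi | hi
      · exact absurd h (h2 i hi)
      · have : i = i0 := Fin.ext hi
        rw [this]
        simp
      · have e2 : pos2 L σ (tt v (.inl i)) ≤ 2 * L + 2 * (L - 1 - i) + 1 := by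
          by_cases hv : v i <;> simp [tt, hv, pos2]
        have hne : i ≠ i0 := fun e => by rw [e] at hi; exact lt_irrefl _ hi
        constructor
        · intro _; exact hne
        · intro _; omega
    · have hw : cw v (.inl i) = .inr (.inl i) := by simp [cw, h]
      rw [hw]
      have e2 : pos2 L σ (tt v (.inr (.inl i))) = L + i := rfl
      have hne : i ≠ i0 := fun e => h (by rw [e]; exact h1)
      constructor
      · intro _; exact hne
      · intro _; omega
  have e3 : ∀ i : Fin L, pos2 L σ (tt v (cw v (.inr i))) < pos2 L σ (tt v (.inl i0)) ↔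
      ¬ (i : ℕ) < σ := by
    intro i
    have e2 : pos2 L σ (tt v (cw v (.inr i))) = if (i : ℕ) < σ then 4 * L + i else i := rfl
    have := i.2
    rw [e2]
    split_ifs <;> omega
  simp only [e1, e3, ite_not]
  have e4 : ∑ x : Fin L, (if x = i0 then 0 else 1) = L - 1 := by
    have e5 : ∑ x : Fin L, ((if x = i0 then 0 else 1) + (if x = i0 then 1 else 0)) = L := by
      have h3 : ∀ x : Fin L, ((if x = i0 then 0 else 1) + (if x = i0 then 1 else 0)) = 1 :=
        fun x => by split_ifs <;> rfl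
      simp only [h3]
      simp
    rw [sum_add_distrib] at e5
    simp only [sum_ite_eq', mem_univ, if_true] at e5
    omega
  rw [e4, sum_fin_ge L σ hσ]
  omega

/-- a good layout exists for every rank -/
theorem exists_pos (L ρ : ℕ) (hρ : ρ < 2 * L) : ∃ pos : Ix L ⊕ Ix L → ℕ,
    Function.Injective pos ∧ ∀ (v : ℕ → Bool) (i0 : Fin L), pr v i0 L = 1 →
      (∀ j < (i0 : ℕ), pr v j L ≠ 1) →
      (univ.filter (fun u : Fin L ⊕ Fin L => pos (tt v (cw v u)) < pos (tt v (.inl i0)))).card =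
        ρ := by
  rcases Nat.lt_or_ge L ρ with h | h
  · refine ⟨pos2 L (2 * L - 1 - ρ), pos2_inj _ _, fun v i0 h1 h2 => ?_⟩
    rw [count2 (by omega) v i0 h1 h2]
    omega
  · exact ⟨pos1 L ρ, pos1_inj _ _, fun v i0 h1 h2 => count1 h v i0 h1 h2⟩

/-! ### The choice of the rule -/

/-- number of elements of `Y` below the choice of the rule -/
def rk (r : ℕ → Finset (ℕ × ℚ) → ℕ) (n : ℕ) (Y : Finset ℕ) : ℕ :=
  (Y.filter (· < r n (Y.image (fun y => (y, (1 : ℚ)))))).card

theorem rule_mem {r : ℕ → Finset (ℕ × ℚ) → ℕ} (hr : IsRule r) (n : ℕ) (Y : Finset ℕ)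
    (hY : Y.Nonempty) : r n (Y.image (fun y => (y, (1 : ℚ)))) ∈ Y := by
  obtain ⟨c, hc⟩ := hr n (Y.image (fun y => (y, (1 : ℚ)))) (hY.image _)
  rw [mem_image] at hc
  obtain ⟨y, hy, he⟩ := hc
  simp only [Prod.mk.injEq] at he
  rw [← he.1]
  exact hy

theorem rank_lt (Y : Finset ℕ) (y : ℕ) (hy : y ∈ Y) : (Y.filter (· < y)).card < Y.card := by
  apply card_lt_card
  refine ⟨filter_subset _ _, fun h => ?_⟩
  have := h hy
  rw [mem_filter] at this
  exact lt_irrefl _ this.2

theorem rank_mono (Y : Finset ℕ) (y y' : ℕ) (hy : y ∈ Y) (h : y < y') :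
    (Y.filter (· < y)).card < (Y.filter (· < y')).card := by
  apply card_lt_card
  refine ⟨fun x hx => ?_, fun hc => ?_⟩
  · rw [mem_filter] at hx ⊢
    exact ⟨hx.1, hx.2.trans h⟩
  · have := hc (mem_filter.mpr ⟨hy, h⟩)
    rw [mem_filter] at this
    exact lt_irrefl _ this.2

theorem rank_inj (Y : Finset ℕ) (y y' : ℕ) (hy : y ∈ Y) (hy' : y' ∈ Y)
    (h : (Y.filter (· < y)).card = (Y.filter (· < y')).card) : y = y' := by
  rcases lt_trichotomy y y' with h1 | h1 | h1
  · exact absurd h (rank_mono Y y y' hy h1).ne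
  · exact h1
  · exact absurd h (rank_mono Y y' y hy' h1).ne'

/-- names for which the rule always chooses the least significant improving real -/
theorem exists_name {r : ℕ → Finset (ℕ × ℚ) → ℕ} (hr : IsRule r) (L : ℕ) (hL : 1 ≤ L) :
    ∃ name : Ix L ⊕ Ix L → ℕ, Function.Injective name ∧
      ∀ (v : ℕ → Bool) (i0 : Fin L), pr v i0 L = 1 → (∀ j < (i0 : ℕ), pr v j L ≠ 1) →
        r (3 * L) ((univ.image (fun u : Fin L ⊕ Fin L => name (tt v (cw v u)))).image
          (fun y => (y, (1 : ℚ)))) = name (tt v (.inl i0)) := by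
  have h2L : 0 < 2 * L := by omega
  obtain ⟨B, -, hB, ρ, hρ⟩ := ramsey (κ := Fin (2 * L)) (2 * L)
    (fun Y => ⟨rk r (3 * L) Y % (2 * L), Nat.mod_lt _ h2L⟩) Set.univ Set.infinite_univ
  obtain ⟨pos, hpi, hpos⟩ := exists_pos L ρ ρ.2
  have ha : StrictMono (Nat.nth (· ∈ B)) := Nat.nth_strictMono hB
  have haB : ∀ n, Nat.nth (· ∈ B) n ∈ B := fun n => Nat.nth_mem_of_infinite hB n
  refine ⟨fun t => Nat.nth (· ∈ B) (pos t), ha.injective.comp hpi, ?_⟩
  intro v i0 h1 h2
  set Y : Finset ℕ := univ.image (fun u : Fin L ⊕ Fin L => Nat.nth (· ∈ B) (pos (tt v (cw v u))))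
    with hY
  have hinj : Function.Injective
      (fun u : Fin L ⊕ Fin L => Nat.nth (· ∈ B) (pos (tt v (cw v u)))) := fun u u' h =>
    cw_inj v (tt_inj v (hpi (ha.injective h)))
  have hYc : Y.card = 2 * L := by
    rw [hY, card_image_of_injective _ hinj, card_univ, Fintype.card_sum, Fintype.card_fin]
    ring
  have hYB : (Y : Set ℕ) ⊆ B := by
    intro y hy
    rw [mem_coe, hY, mem_image] at hy
    obtain ⟨u, -, rfl⟩ := hy
    exact haB _
  have hYn : Y.Nonempty := card_pos.mp (by omega)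
  have hm := rule_mem hr (3 * L) Y hYn
  have hrk : rk r (3 * L) Y = ρ := by
    have h3 := congrArg Fin.val (hρ Y hYB hYc)
    simp only at h3
    have h4 : rk r (3 * L) Y < 2 * L := by
      rw [← hYc]
      exact rank_lt Y _ hm
    rwa [Nat.mod_eq_of_lt h4] at h3
  have hw : cw v (.inl i0) = .inl i0 := by simp [cw, h1]
  have hm0 : Nat.nth (· ∈ B) (pos (tt v (.inl i0))) ∈ Y := by
    rw [hY, mem_image]
    exact ⟨.inl i0, mem_univ _, by rw [hw]⟩
  apply rank_inj Y _ _ hm hm0
  change rk r (3 * L) Y = _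
  rw [hrk, ← hpos v i0 h1 h2, hY, filter_image, card_image_of_injective _ hinj]
  congr 1
  ext u
  simp only [mem_filter, mem_univ, true_and]
  exact ha.lt_iff_lt.symm

end Pool.Agent.W613.NR
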